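import Pool.Agent.H126R2.CDC.PackK
import Pool.Agent.Helper879.ECD.Flow

set_option autoImplicit false
set_option linter.unusedSectionVars false
set_option linter.unusedSimpArgs false

/-!
The eight-flow theorem of Jaeger and Kilpatrick, over the elementary abelian group of order eight.
-/

namespace Pool.Agent.H126R2.CDC

open Finset
open Pool.Agent.Helper879.ECD (sp Ind sp_mono mem_sp mem_sp_exch sp_exch F2 IsFlow inc fnl
  fnl_single fnl_inc cn f2_add_self exists_coeff)

section Flow

variable {W E : Type} [Fintype W] [DecidableEq W] [Fintype E] [DecidableEq E]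

open Classical in
/-- rank condition for graphs whose nonzero cuts have at least three edges -/
lemma rank_cond3 (a b : E → W) (h4 : ∀ X : Finset W, cn a b univ X = 0 ∨ 3 ≤ cn a b univ X)
    (S : Submodule F2 (W → F2)) :
    3 * Module.finrank F2 (sp F2 (inc a b) univ) ≤
      3 * Module.finrank F2 S +
        2 * (univ.filter (fun e => ¬ inc a b e ∈ S)).card := by
  let r : W → W → Prop := fun w v => (Pi.single w 1 + Pi.single v 1 : W → F2) ∈ S
  have hself : ∀ u : W → F2, u + u = 0 := by
    intro u; ext w; exact f2_add_self _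
  have hr_refl : ∀ w, r w w := by
    intro w
    show (Pi.single w 1 + Pi.single w 1 : W → F2) ∈ S
    rw [hself]; exact S.zero_mem
  have hr_symm : ∀ w v, r w v → r v w := by
    intro w v h
    show (Pi.single v 1 + Pi.single w 1 : W → F2) ∈ S
    rw [add_comm]; exact h
  have hr_trans : ∀ u v w, r u v → r v w → r u w := by
    intro u v w h1 h2
    have h3 := S.add_mem h1 h2
    have h4 : (Pi.single u 1 + Pi.single v 1 : W → F2) + (Pi.single v 1 + Pi.single w 1) =
        Pi.single u 1 + Pi.single w 1 := by
      rw [show (Pi.single u 1 + Pi.single v 1 : W → F2) + (Pi.single v 1 + Pi.single w 1) =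
        Pi.single u 1 + (Pi.single v 1 + Pi.single v 1) + Pi.single w 1 by abel, hself, add_zero]
    rw [h4] at h3
    exact h3
  let cls : W → Finset W := fun w => univ.filter (fun v => r w v)
  have hcls : ∀ w v, v ∈ cls w ↔ r w v := by intro w v; simp [cls]
  have hcls_eq : ∀ w v, r w v → cls w = cls v := by
    intro w v h
    ext u
    rw [hcls, hcls]
    exact ⟨fun h' => hr_trans _ _ _ (hr_symm _ _ h) h', fun h' => hr_trans _ _ _ h h'⟩
  let P : Finset (Finset W) := univ.image cls
  have hPmem : ∀ w, cls w ∈ P := fun w => Finset.mem_image_of_mem _ (Finset.mem_univ _)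
  have hPuniq : ∀ X ∈ P, ∀ w ∈ X, X = cls w := by
    intro X hX w hw
    obtain ⟨v, _, rfl⟩ := Finset.mem_image.1 hX
    exact hcls_eq _ _ ((hcls _ _).1 hw)
  let P' : Finset (Finset W) := P.filter (fun X => cn a b univ X ≠ 0)
  have hE : ∀ e, inc a b e ∈ S ↔ r (a e) (b e) := fun e => Iff.rfl
  -- counting
  have hcount : ∑ X ∈ P, cn a b univ X =
      2 * (univ.filter (fun e => ¬ inc a b e ∈ S)).card := by
    simp only [cn, Finset.card_filter, Finset.mul_sum]
    rw [Finset.sum_comm]
    apply Finset.sum_congr rfl
    intro e _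
    by_cases h : inc a b e ∈ S
    · have h1 : ∀ X ∈ P, (if ¬ (a e ∈ X ↔ b e ∈ X) then 1 else 0) = 0 := by
        intro X hX
        rw [if_neg]
        rw [not_not]
        constructor
        · intro h2
          rw [hPuniq X hX _ h2, hcls]
          exact (hE e).1 h
        · intro h2
          rw [hPuniq X hX _ h2, hcls]
          exact hr_symm _ _ ((hE e).1 h)
      rw [Finset.sum_congr rfl h1]
      simp [h]
    · have hne : cls (a e) ≠ cls (b e) := by
        intro h2
        apply h
        rw [hE]
        have : b e ∈ cls (b e) := (hcls _ _).2 (hr_refl _)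
        rw [← h2, hcls] at this
        exact this
      have h1 : ∀ X ∈ P, (if ¬ (a e ∈ X ↔ b e ∈ X) then 1 else 0) =
          (if X = cls (a e) then 1 else 0) + (if X = cls (b e) then 1 else 0) := by
        intro X hX
        have ha : a e ∈ X ↔ X = cls (a e) :=
          ⟨fun h2 => hPuniq X hX _ h2, fun h2 => by rw [h2, hcls]; exact hr_refl _⟩
        have hb : b e ∈ X ↔ X = cls (b e) :=
          ⟨fun h2 => hPuniq X hX _ h2, fun h2 => by rw [h2, hcls]; exact hr_refl _⟩
        by_cases h2 : X = cls (a e)
        · have h3 : ¬ X = cls (b e) := fun h3 => hne (h2.symm.trans h3)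
          rw [if_pos, if_pos h2, if_neg h3]
          intro h4
          exact h3 (hb.1 (h4.1 (ha.2 h2)))
        · by_cases h3 : X = cls (b e)
          · rw [if_pos, if_neg h2, if_pos h3]
            intro h4
            exact h2 (ha.1 (h4.2 (hb.2 h3)))
          · rw [if_neg, if_neg h2, if_neg h3]
            rw [not_not]
            exact ⟨fun h4 => absurd (ha.1 h4) h2, fun h4 => absurd (hb.1 h4) h3⟩
      rw [Finset.sum_congr rfl h1, Finset.sum_add_distrib]
      simp [h, hPmem]
  have hP' : 3 * P'.card ≤ 2 * (univ.filter (fun e => ¬ inc a b e ∈ S)).card := by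
    have h1 : 3 * P'.card ≤ ∑ X ∈ P', cn a b univ X := by
      have := Finset.card_nsmul_le_sum P' (fun X => cn a b univ X) 3 (by
        intro X hX
        have h2 := (Finset.mem_filter.1 hX).2
        rcases h4 X with h3 | h3
        · exact absurd h3 h2
        · exact h3)
      rw [smul_eq_mul] at this
      omega
    have h2 : ∑ X ∈ P', cn a b univ X ≤ ∑ X ∈ P, cn a b univ X :=
      Finset.sum_le_sum_of_subset (Finset.filter_subset _ _)
    omega
  -- representatives
  have hrep : ∀ X ∈ P, ∃ w, w ∈ X := by
    intro X hX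
    obtain ⟨v, _, rfl⟩ := Finset.mem_image.1 hX
    exact ⟨v, (hcls _ _).2 (hr_refl _)⟩
  by_cases hWe : IsEmpty W
  · have : (sp F2 (inc a b) univ) ≤ S := by
      unfold sp
      rw [Submodule.span_le]
      rintro _ ⟨e, _, rfl⟩
      exact (hWe.false (a e)).elim
    have := Submodule.finrank_mono this
    omega
  rw [not_isEmpty_iff] at hWe
  choose! rep hrep using hrep
  let T : Finset (W → F2) := P'.image (fun X => Pi.single (rep X) 1)
  have hle : sp F2 (inc a b) univ ≤ S ⊔ Submodule.span F2 (T : Set (W → F2)) := by
    unfold sp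
    rw [Submodule.span_le]
    rintro _ ⟨e, _, rfl⟩
    by_cases h : inc a b e ∈ S
    · exact Submodule.mem_sup_left h
    · have hne : cls (a e) ≠ cls (b e) := by
        intro h2
        apply h
        rw [hE]
        have : b e ∈ cls (b e) := (hcls _ _).2 (hr_refl _)
        rw [← h2, hcls] at this
        exact this
      have key : ∀ w, (w = a e ∨ w = b e) → cls w ∈ P' := by
        intro w hw
        rw [Finset.mem_filter]
        refine ⟨hPmem _, ?_⟩
        unfold cn
        rw [Finset.card_ne_zero]
        refine ⟨e, ?_⟩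
        rw [Finset.mem_filter]
        refine ⟨Finset.mem_univ _, ?_⟩
        intro h2
        apply h
        rw [hE]
        rcases hw with rfl | rfl
        · exact (hcls _ _).1 (h2.1 ((hcls _ _).2 (hr_refl _)))
        · exact hr_symm _ _ ((hcls _ _).1 (h2.2 ((hcls _ _).2 (hr_refl _))))
      have hmem : ∀ w, (w = a e ∨ w = b e) →
          (Pi.single w 1 : W → F2) ∈ S ⊔ Submodule.span F2 (T : Set (W → F2)) := by
        intro w hw
        have h1 : (Pi.single w 1 + Pi.single (rep (cls w)) 1 : W → F2) ∈ S :=
          (hcls _ _).1 (hrep _ (hPmem w))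
        have h2 : (Pi.single (rep (cls w)) 1 : W → F2) ∈ Submodule.span F2 (T : Set (W → F2)) := by
          apply Submodule.subset_span
          rw [Finset.mem_coe]
          exact Finset.mem_image.2 ⟨cls w, key w hw, rfl⟩
        have h3 : (Pi.single w 1 : W → F2) =
            (Pi.single w 1 + Pi.single (rep (cls w)) 1) + Pi.single (rep (cls w)) 1 := by
          rw [add_assoc, hself, add_zero]
        rw [h3]
        exact Submodule.add_mem _ (Submodule.mem_sup_left h1) (Submodule.mem_sup_right h2)
      exact Submodule.add_mem _ (hmem _ (Or.inl rfl)) (hmem _ (Or.inr rfl))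
  have h1 := Submodule.finrank_mono hle
  have h2 := Submodule.finrank_add_le_finrank_add_finrank S (Submodule.span F2 (T : Set (W → F2)))
  have h3 : Module.finrank F2 (Submodule.span F2 (T : Set (W → F2))) ≤ T.card :=
    finrank_span_finset_le_card T
  have h5 : T.card ≤ P'.card := Finset.card_image_le
  omega


/-- nowhere-zero flows when every nonzero cut has at least three edges -/
lemma flow8 (a b : E → W) (h4 : ∀ X : Finset W, cn a b univ X = 0 ∨ 3 ≤ cn a b univ X) :
    ∃ ψ : Fin 3 → E → F2, (∀ e, ψ 0 e ≠ 0 ∨ ψ 1 e ≠ 0 ∨ ψ 2 e ≠ 0) ∧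
      ∀ i, IsFlow a b (ψ i) := by
  classical
  have hrank : ∀ R : Finset (E × Fin 2), Fintype.card (Fin 3) *
      Module.finrank F2 (sp F2 (fun p : E × Fin 2 => inc a b p.1) univ) ≤
      Fintype.card (Fin 3) * Module.finrank F2 (sp F2 (fun p : E × Fin 2 => inc a b p.1) R) +
        (univ.filter (fun p : E × Fin 2 =>
          ¬ inc a b p.1 ∈ sp F2 (fun p : E × Fin 2 => inc a b p.1) R)).card := by
    intro R
    have h1 := rank_cond3 a b h4 (sp F2 (fun p : E × Fin 2 => inc a b p.1) R)
    have h2 : sp F2 (fun p : E × Fin 2 => inc a b p.1) univ = sp F2 (inc a b) univ := by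
      unfold sp
      congr 1
      ext u
      simp
    have h3 : (univ.filter (fun p : E × Fin 2 =>
          ¬ inc a b p.1 ∈ sp F2 (fun p : E × Fin 2 => inc a b p.1) R)).card =
        2 * (univ.filter (fun e : E =>
          ¬ inc a b e ∈ sp F2 (fun p : E × Fin 2 => inc a b p.1) R)).card := by
      have h4 : univ.filter (fun p : E × Fin 2 =>
          ¬ inc a b p.1 ∈ sp F2 (fun p : E × Fin 2 => inc a b p.1) R) =
          (univ.filter (fun e : E =>
          ¬ inc a b e ∈ sp F2 (fun p : E × Fin 2 => inc a b p.1) R)) ×ˢ (univ : Finset (Fin 2)) := by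
        ext p; simp
      rw [h4, Finset.card_product, Finset.card_univ, Fintype.card_fin, mul_comm]
    rw [h2, h3, Fintype.card_fin]
    exact h1
  obtain ⟨I, hd, hI⟩ := packK (K := Fin 3) (F := F2)
    (x := fun p : E × Fin 2 => inc a b p.1) hrank
  have hτ : ∑ e, inc a b e ∈ sp F2 (inc a b) univ :=
    Submodule.sum_mem _ (fun e _ => mem_sp (Finset.mem_univ e))
  have key : ∀ I : Finset E, sp F2 (inc a b) I = sp F2 (inc a b) univ →
      ∃ ψ : E → F2, (∀ e, e ∉ I → ψ e = 1) ∧ IsFlow a b ψ := by
    intro I hI
    rw [← hI] at hτ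
    obtain ⟨c, hc⟩ := exists_coeff hτ
    refine ⟨fun e => 1 + if e ∈ I then c e else 0, ?_, ?_⟩
    · intro e he; simp [he]
    · intro d
      have h1 : ∑ e, (1 + if e ∈ I then c e else 0) • inc a b e = 0 := by
        have h2 : ∀ e ∈ (univ : Finset E), (1 + if e ∈ I then c e else 0) • inc a b e =
            inc a b e + if e ∈ I then c e • inc a b e else 0 := by
          intro e _
          rw [add_smul, one_smul]
          split_ifs <;> simp
        rw [Finset.sum_congr rfl h2, Finset.sum_add_distrib, ← Finset.sum_filter,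
          Finset.filter_mem_eq_inter, Finset.univ_inter, hc]
        ext w; exact f2_add_self _
      have h2 := congrArg (fnl d) h1
      rw [map_sum, map_zero] at h2
      refine Eq.trans ?_ h2
      apply Finset.sum_congr rfl
      intro e _
      rw [map_smul, fnl_inc, smul_eq_mul]
  have hT : ∀ i : Fin 3, sp F2 (inc a b) ((I i).image Prod.fst) = sp F2 (inc a b) univ := by
    intro i
    have h1 := hI i
    have h2 : sp F2 (fun p : E × Fin 2 => inc a b p.1) univ = sp F2 (inc a b) univ := by
      unfold sp
      congr 1
      ext u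
      simp
    have h3 : sp F2 (fun p : E × Fin 2 => inc a b p.1) (I i) =
        sp F2 (inc a b) ((I i).image Prod.fst) := by
      unfold sp
      congr 1
      ext u
      simp
    rw [← h3, h1, h2]
  choose ψ hψ1 hψ2 using fun i => key _ (hT i)
  refine ⟨ψ, ?_, hψ2⟩
  intro e
  by_contra hcon
  push Not at hcon
  have hmem : ∀ i : Fin 3, ∃ j : Fin 2, (e, j) ∈ I i := by
    intro i
    by_contra h
    push Not at h
    have h1 : e ∉ (I i).image Prod.fst := by
      intro h2
      obtain ⟨⟨e', j⟩, hp, rfl⟩ := Finset.mem_image.1 h2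
      exact h j hp
    have h2 := hψ1 i e h1
    have h3 : ψ i e = 0 := by
      have hall : ∀ i : Fin 3, ψ i e = 0 := by
        intro i
        fin_cases i
        · exact hcon.1
        · exact hcon.2.1
        · exact hcon.2.2
      exact hall i
    rw [h3] at h2
    exact absurd h2 (by decide)
  choose j hj using hmem
  obtain ⟨i1, i2, hne, heq⟩ := Fintype.exists_ne_map_eq_of_card_lt j (by simp)
  have h1 := hj i1
  have h2 := hj i2
  rw [heq] at h1
  exact Finset.disjoint_left.1 (hd i1 i2 hne) h1 h2

end Flow

/-- Jaeger, Kilpatrick: a bridgeless graph has a nowhere-zero flow over the elementary abelian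
group of order eight. -/
theorem exists_flow8 {W E : Type} [Fintype W] [DecidableEq W] [Fintype E] [DecidableEq E] :
    ∀ (n : ℕ) (a b : E → W), (univ.filter (fun e => a e ≠ b e)).card = n →
      (∀ X : Finset W, cn a b univ X ≠ 1) →
      ∃ ψ : Fin 3 → E → F2, (∀ e, ψ 0 e ≠ 0 ∨ ψ 1 e ≠ 0 ∨ ψ 2 e ≠ 0) ∧
        ∀ i, IsFlow a b (ψ i) := by
  intro n
  induction n using Nat.strong_induction_on with
  | _ n ih =>
  intro a b hn h13
  by_cases h4 : ∀ X : Finset W, cn a b univ X = 0 ∨ 3 ≤ cn a b univ X
  · exact flow8 a b h4
  · push Not at h4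
    obtain ⟨X, hX0, hX4⟩ := h4
    have hX := h13 X
    have hX2 : cn a b univ X = 2 := by omega
    unfold cn at hX2
    obtain ⟨f, g, hfg, hset⟩ := Finset.card_eq_two.1 hX2
    have hmem : ∀ e, ¬ (a e ∈ X ↔ b e ∈ X) ↔ (e = f ∨ e = g) := by
      intro e
      have : e ∈ univ.filter (fun e => ¬ (a e ∈ X ↔ b e ∈ X)) ↔ e ∈ ({f, g} : Finset E) := by
        rw [hset]
      simpa using this
    have hfne : a f ≠ b f := by
      intro h
      exact (hmem f).2 (Or.inl rfl) (by rw [h])
    let ρ : W → W := fun w => if w = b f then a f else w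
    have hρ : ∀ (M : Finset E) (Y : Finset W), cn (fun e => ρ (a e)) (fun e => ρ (b e)) M Y =
        cn a b M (univ.filter (fun w => ρ w ∈ Y)) := by
      intro M Y
      unfold cn
      congr 1
      apply Finset.filter_congr
      intro e _
      simp
    have hlt : (univ.filter (fun e => ρ (a e) ≠ ρ (b e))).card < n := by
      rw [← hn]
      apply Finset.card_lt_card
      rw [Finset.ssubset_iff_of_subset]
      · refine ⟨f, ?_, ?_⟩
        · rw [Finset.mem_filter]; exact ⟨Finset.mem_univ _, hfne⟩
        · rw [Finset.mem_filter]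
          rintro ⟨_, h⟩
          apply h
          simp [ρ, hfne]
      · intro e he
        rw [Finset.mem_filter] at he ⊢
        refine ⟨Finset.mem_univ _, fun h => he.2 (by rw [h])⟩
    obtain ⟨φ, hnz, hf⟩ := ih _ hlt (fun e => ρ (a e)) (fun e => ρ (b e)) rfl (by
      intro Y; rw [hρ]; exact h13 _)
    have key : ∀ φ : E → F2, IsFlow (fun e => ρ (a e)) (fun e => ρ (b e)) φ →
        ∃ ψ : E → F2, IsFlow a b ψ ∧ (∀ e, e ≠ f → ψ e = φ e) ∧ ψ f = φ g := by
      intro φ hφ
      let δ : W → F2 := fun w => if w = b f then 1 else 0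
      let l : F2 := ∑ e ∈ univ.erase f, φ e * (δ (a e) + δ (b e))
      let ψ : E → F2 := fun e => if e = f then l else φ e
      have hψf : ψ f = l := if_pos rfl
      have hψne : ∀ e, e ≠ f → ψ e = φ e := fun e he => if_neg he
      have hflow : IsFlow a b ψ := by
        intro c
        let c' : W → F2 := fun w => c (ρ w)
        have hcc : ∀ w, c w = c' w + (c (a f) + c (b f)) * δ w := by
          intro w
          by_cases hw : w = b f
          · simp only [c', ρ, δ, hw, if_true, mul_one]
            rw [← add_assoc, f2_add_self, zero_add]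
          · simp only [c', ρ, δ, hw, if_false, mul_zero, add_zero]
        have h1 : ∑ e, ψ e * (c (a e) + c (b e)) =
            ∑ e, ψ e * (c' (a e) + c' (b e)) +
              (c (a f) + c (b f)) * ∑ e, ψ e * (δ (a e) + δ (b e)) := by
          rw [Finset.mul_sum, ← Finset.sum_add_distrib]
          apply Finset.sum_congr rfl
          intro e _
          rw [hcc (a e), hcc (b e)]
          ring
        have h2 : ∑ e, ψ e * (c' (a e) + c' (b e)) = 0 := by
          have h3 := hφ c
          rw [← h3]
          apply Finset.sum_congr rfl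
          intro e _
          by_cases he : e = f
          · rw [he]
            have h4 : c' (a f) + c' (b f) = 0 := by
              simp only [c', ρ, hfne, if_false, if_true]
              exact f2_add_self _
            have h5 : c (ρ (a f)) + c (ρ (b f)) = 0 := h4
            rw [h4, mul_zero, mul_zero]
          · rw [hψne e he]
        have h3 : ∑ e, ψ e * (δ (a e) + δ (b e)) = 0 := by
          rw [← Finset.add_sum_erase univ _ (Finset.mem_univ f), hψf]
          have h4 : ∑ e ∈ univ.erase f, ψ e * (δ (a e) + δ (b e)) = l := by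
            apply Finset.sum_congr rfl
            intro e he
            rw [hψne e (Finset.ne_of_mem_erase he)]
          rw [h4]
          have h5 : δ (a f) + δ (b f) = 1 := by simp [δ, hfne]
          rw [h5, mul_one]
          exact f2_add_self _
        rw [h1, h2, h3, mul_zero, add_zero]
      refine ⟨ψ, hflow, hψne, ?_⟩
      -- the two edges of the cut carry the same value
      have h1 := hflow (fun w => if w ∈ X then 1 else 0)
      have h2 : ∀ e ∈ (univ : Finset E), ψ e * ((if a e ∈ X then (1 : F2) else 0) +
          (if b e ∈ X then 1 else 0)) = if (e = f ∨ e = g) then ψ e else 0 := by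
        intro e _
        by_cases he : (e = f ∨ e = g)
        · rw [if_pos he]
          have := (hmem e).2 he
          by_cases h3 : a e ∈ X
          · have h4 : b e ∉ X := fun h4 => this ⟨fun _ => h4, fun _ => h3⟩
            simp [h3, h4]
          · have h4 : b e ∈ X := by
              by_contra h4; exact this ⟨fun h => absurd h h3, fun h => absurd h h4⟩
            simp [h3, h4]
        · rw [if_neg he]
          have := not_not.1 (fun h => he ((hmem e).1 h))
          by_cases h3 : a e ∈ X
          · have h4 := this.1 h3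
            simp only [h3, h4, if_true]
            rw [f2_add_self, mul_zero]
          · have h4 : b e ∉ X := fun h => h3 (this.2 h)
            simp [h3, h4]
      rw [Finset.sum_congr rfl h2, ← Finset.sum_filter] at h1
      have h3 : univ.filter (fun e => e = f ∨ e = g) = {f, g} := by
        ext e; simp
      rw [h3, Finset.sum_pair hfg, hψne g (Ne.symm hfg)] at h1
      calc ψ f = ψ f + (φ g + φ g) := by rw [f2_add_self, add_zero]
        _ = (ψ f + φ g) + φ g := by ring
        _ = φ g := by rw [h1, zero_add]
    choose ψ k1 k2 k3 using fun i => key (φ i) (hf i)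
    refine ⟨ψ, ?_, k1⟩
    intro e
    by_cases he : e = f
    · rw [he, k3, k3, k3]; exact hnz g
    · rw [k2 0 e he, k2 1 e he, k2 2 e he]; exact hnz e

end Pool.Agent.H126R2.CDC
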