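import Pool.Agent.H126R2.CDC.Defs

set_option autoImplicit false
set_option linter.unusedSectionVars false

/-!
The decomposition of an even edge set into circuits.
-/

namespace Pool.Agent.H126R2.CDC

open Finset

namespace MGraph

variable {V E : Type} [Fintype V] [DecidableEq V] [Fintype E] [DecidableEq E] (G : MGraph V E)

/-- number of edge-ends of `e` at `v` -/
def ep (e : E) (v : V) : ℕ := (if v ∈ G.ends e then 1 else 0) + (if G.ends e = s(v, v) then 1 else 0)

lemma ep_eq_zero {e : E} {v : V} (h : v ∉ G.ends e) : G.ep e v = 0 := by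
  have h2 : ¬ G.ends e = s(v, v) := by
    intro h3; apply h; rw [h3]; simp
  unfold ep
  rw [if_neg h, if_neg h2]

lemma deg_eq_sum (D : Finset E) (v : V) : G.deg D v = ∑ e ∈ D, G.ep e v := by
  unfold deg ep
  rw [Finset.sum_add_distrib, Finset.card_filter, Finset.card_filter]

lemma sum_ep (e : E) : ∑ v, G.ep e v = 2 := by
  unfold ep
  induction h : G.ends e using Sym2.ind with
  | _ x y =>
    by_cases hxy : x = y
    · subst hxy
      have h1 : ∀ v ∈ (univ : Finset V), ((if v ∈ s(x, x) then 1 else 0) +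
          (if s(x, x) = s(v, v) then 1 else 0)) = if v = x then 2 else 0 := by
        intro v _
        by_cases hv : v = x
        · subst hv; simp
        · have h2 : ¬ s(x, x) = s(v, v) := by
            intro h3
            rw [Sym2.eq_iff] at h3
            rcases h3 with ⟨h3, _⟩ | ⟨h3, _⟩ <;> exact hv h3.symm
          simp [hv, h2]
      rw [Finset.sum_congr rfl h1]
      simp
    · have h1 : ∀ v ∈ (univ : Finset V), ((if v ∈ s(x, y) then 1 else 0) +
          (if s(x, y) = s(v, v) then 1 else 0)) =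
          (if v = x then 1 else 0) + (if v = y then 1 else 0) := by
        intro v _
        have h2 : ¬ s(x, y) = s(v, v) := by
          intro h3
          rw [Sym2.eq_iff] at h3
          rcases h3 with ⟨h3, h4⟩ | ⟨h3, h4⟩ <;> exact hxy (h3.trans h4.symm)
        by_cases hv : v = x
        · subst hv
          simp [h2, hxy]
        · by_cases hv2 : v = y
          · subst hv2
            simp [h2, hv]
          · simp [h2, hv, hv2]
      rw [Finset.sum_congr rfl h1, Finset.sum_add_distrib]
      simp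

/-- every vertex has even degree -/
def IsEven (D : Finset E) : Prop := ∀ v, Even (G.deg D v)

lemma IsCircuit.isEven {G : MGraph V E} {C : Finset E} (h : G.IsCircuit C) : G.IsEven C := by
  intro v
  rcases h.2.1 v with h1 | h1 <;> rw [h1]
  · exact ⟨0, rfl⟩
  · exact ⟨1, rfl⟩

lemma deg_sdiff {C D : Finset E} (h : C ⊆ D) (v : V) : G.deg (D \ C) v + G.deg C v = G.deg D v := by
  rw [deg_eq_sum, deg_eq_sum, deg_eq_sum, Finset.sum_sdiff h]

lemma isEven_sdiff {C D : Finset E} (h : C ⊆ D) (hC : G.IsEven C) (hD : G.IsEven D) :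
    G.IsEven (D \ C) := by
  intro v
  have h1 := G.deg_sdiff h v
  have h2 := hC v
  have h3 := hD v
  rw [← h1] at h3
  exact (Nat.even_add.1 h3).2 h2

/-- a set of edges meeting every vertex evenly modulo two -/
lemma exists_even_sub (C : Finset E) (e0 : E) (he0 : e0 ∈ C)
    (hcard : (univ.filter fun v => G.deg C v ≠ 0).card < C.card) :
    ∃ D : Finset E, D ⊆ C ∧ D.Nonempty ∧ e0 ∉ D ∧ G.IsEven D := by
  classical
  -- a vertex on `e0`
  obtain ⟨w0, hw0⟩ : ∃ w, w ∈ G.ends e0 := by
    induction h : G.ends e0 using Sym2.ind with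
    | _ x y => exact ⟨x, by simp⟩
  have hw0' : G.deg C w0 ≠ 0 := by
    unfold deg
    have : 0 < (C.filter fun e => w0 ∈ G.ends e).card :=
      Finset.card_pos.2 ⟨e0, Finset.mem_filter.2 ⟨he0, hw0⟩⟩
    omega
  let VC := {v : V // G.deg C v ≠ 0 ∧ v ≠ w0}
  let EC := {e : E // e ∈ C ∧ e ≠ e0}
  let f : (EC → ZMod 2) →ₗ[ZMod 2] (VC → ZMod 2) :=
    { toFun := fun x v => ∑ e : EC, x e * (G.ep e.1 v.1 : ZMod 2)
      map_add' := by
        intro x y; ext v; simp only [Pi.add_apply, add_mul, Finset.sum_add_distrib]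
      map_smul' := by
        intro r x; ext v
        simp only [Pi.smul_apply, smul_eq_mul, RingHom.id_apply, Finset.mul_sum, mul_assoc] }
  have hVC : Fintype.card VC = (univ.filter fun v => G.deg C v ≠ 0).card - 1 := by
    rw [Fintype.card_subtype]
    have : (univ.filter fun v => G.deg C v ≠ 0 ∧ v ≠ w0) =
        (univ.filter fun v => G.deg C v ≠ 0).erase w0 := by
      ext v
      simp only [Finset.mem_filter, Finset.mem_univ, true_and, Finset.mem_erase]
      tauto
    rw [this, Finset.card_erase_of_mem (by simp [hw0'])]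
  have hEC : Fintype.card EC = C.card - 1 := by
    rw [Fintype.card_subtype]
    have : (univ.filter fun e => e ∈ C ∧ e ≠ e0) = C.erase e0 := by
      ext e
      simp only [Finset.mem_filter, Finset.mem_univ, true_and, Finset.mem_erase]
      tauto
    rw [this, Finset.card_erase_of_mem he0]
  have hpos : 0 < (univ.filter fun v => G.deg C v ≠ 0).card :=
    Finset.card_pos.2 ⟨w0, by simp [hw0']⟩
  have hlt : Module.finrank (ZMod 2) (VC → ZMod 2) < Module.finrank (ZMod 2) (EC → ZMod 2) := by
    rw [Module.finrank_fintype_fun_eq_card, Module.finrank_fintype_fun_eq_card, hVC, hEC]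
    omega
  have hker := LinearMap.ker_ne_bot_of_finrank_lt (f := f) hlt
  obtain ⟨x, hx, hx0⟩ := (Submodule.ne_bot_iff _).1 hker
  rw [LinearMap.mem_ker] at hx
  let D : Finset E := C.filter (fun e => ∃ h : e ∈ C ∧ e ≠ e0, x ⟨e, h⟩ ≠ 0)
  have hD1 : D ⊆ C := Finset.filter_subset _ _
  have hDe0 : e0 ∉ D := by
    intro h
    obtain ⟨h1, _⟩ := (Finset.mem_filter.1 h).2
    exact h1.2 rfl
  have hDne : D.Nonempty := by
    by_contra hne
    rw [Finset.not_nonempty_iff_eq_empty] at hne
    apply hx0
    ext e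
    by_contra h
    have : e.1 ∈ D := Finset.mem_filter.2 ⟨e.2.1, e.2, h⟩
    rw [hne] at this
    exact absurd this (Finset.notMem_empty _)
  refine ⟨D, hD1, hDne, hDe0, ?_⟩
  -- evenness away from `w0`
  have hcast : ∀ v, ((G.deg D v : ℕ) : ZMod 2) = ∑ e : EC, x e * (G.ep e.1 v : ZMod 2) := by
    intro v
    rw [deg_eq_sum, Nat.cast_sum]
    have h1 : ∑ e : EC, x e * (G.ep e.1 v : ZMod 2) =
        ∑ e ∈ C, (if h : e ∈ C ∧ e ≠ e0 then x ⟨e, h⟩ else 0) * (G.ep e v : ZMod 2) := by
      have h2 : ∑ e ∈ C, (if h : e ∈ C ∧ e ≠ e0 then x ⟨e, h⟩ else 0) * (G.ep e v : ZMod 2) =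
          ∑ e : E, (if h : e ∈ C ∧ e ≠ e0 then x ⟨e, h⟩ else 0) * (G.ep e v : ZMod 2) := by
        apply Finset.sum_subset (Finset.subset_univ _)
        intro e _ he
        rw [dif_neg (fun h => he h.1), zero_mul]
      rw [h2]
      have h3 : ∑ e : E, (if h : e ∈ C ∧ e ≠ e0 then x ⟨e, h⟩ else 0) * (G.ep e v : ZMod 2) =
          ∑ e ∈ univ.filter (fun e => e ∈ C ∧ e ≠ e0),
            (if h : e ∈ C ∧ e ≠ e0 then x ⟨e, h⟩ else 0) * (G.ep e v : ZMod 2) := by
        symm
        apply Finset.sum_subset (Finset.filter_subset _ _)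
        intro e _ he
        rw [Finset.mem_filter, not_and] at he
        rw [dif_neg (he (Finset.mem_univ _)), zero_mul]
      rw [h3]
      rw [Finset.sum_subtype (univ.filter (fun e => e ∈ C ∧ e ≠ e0))
        (p := fun e => e ∈ C ∧ e ≠ e0) (fun e => by simp)]
      apply Finset.sum_congr rfl
      intro e _
      rw [dif_pos e.2]
    rw [h1]
    have h4 : ∑ e ∈ D, ((G.ep e v : ℕ) : ZMod 2) =
        ∑ e ∈ C, (if e ∈ D then ((G.ep e v : ℕ) : ZMod 2) else 0) := by
      rw [← Finset.sum_filter, Finset.filter_mem_eq_inter, Finset.inter_eq_right.2 hD1]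
    rw [h4]
    apply Finset.sum_congr rfl
    intro e he
    by_cases h5 : e ≠ e0
    · rw [dif_pos ⟨he, h5⟩]
      by_cases h6 : x ⟨e, he, h5⟩ = 0
      · have : e ∉ D := by
          intro h7
          obtain ⟨_, h8⟩ := (Finset.mem_filter.1 h7).2
          exact h8 h6
        rw [if_neg this, h6, zero_mul]
      · have h9 : e ∈ D := Finset.mem_filter.2 ⟨he, ⟨he, h5⟩, h6⟩
        have h10 : ∀ y : ZMod 2, y ≠ 0 → y = 1 := by decide
        rw [if_pos h9, h10 _ h6, one_mul]
    · push Not at h5
      subst h5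
      rw [if_neg hDe0, dif_neg (fun h => h.2 rfl), zero_mul]
  have hev : ∀ v, v ≠ w0 → Even (G.deg D v) := by
    intro v hv
    by_cases h0 : G.deg C v = 0
    · have h1 := G.deg_sdiff hD1 v
      have : G.deg D v = 0 := by omega
      rw [this]; exact ⟨0, rfl⟩
    · have h1 := congrFun hx ⟨v, h0, hv⟩
      have h2 : ((G.deg D v : ℕ) : ZMod 2) = 0 := by
        rw [hcast v]; exact h1
      exact (ZMod.natCast_eq_zero_iff_even).1 h2
  have htotal : ∑ v, G.deg D v = 2 * D.card := by
    have h1 : ∀ v ∈ (univ : Finset V), G.deg D v = ∑ e ∈ D, G.ep e v :=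
      fun v _ => G.deg_eq_sum D v
    rw [Finset.sum_congr rfl h1, Finset.sum_comm]
    have h2 : ∀ e ∈ D, ∑ v, G.ep e v = 2 := fun e _ => G.sum_ep e
    rw [Finset.sum_congr rfl h2, Finset.sum_const, smul_eq_mul, mul_comm]
  intro v
  by_cases hv : v = w0
  · subst hv
    have h1 := Finset.add_sum_erase univ (fun u => G.deg D u) (Finset.mem_univ v)
    have h2 : Even (∑ u ∈ univ.erase v, G.deg D u) :=
      Finset.even_sum _ (fun u hu => hev u (Finset.ne_of_mem_erase hu))
    have h3 : Even (G.deg D v + ∑ u ∈ univ.erase v, G.deg D u) := by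
      have h4 : G.deg D v + ∑ u ∈ univ.erase v, G.deg D u = 2 * D.card := h1.trans htotal
      rw [h4]; exact even_two_mul _
    exact (Nat.even_add.1 h3).2 h2
  · exact hev v hv

/-- every nonempty even edge set contains a circuit -/
lemma exists_circuit (D : Finset E) (hD : D.Nonempty) (hev : G.IsEven D) :
    ∃ C, C ⊆ D ∧ G.IsCircuit C := by
  classical
  -- a minimal nonempty even subset
  have hex : ((D.powerset).filter (fun C => C.Nonempty ∧ G.IsEven C)).Nonempty :=
    ⟨D, Finset.mem_filter.2 ⟨Finset.mem_powerset.2 (Finset.Subset.refl _), hD, hev⟩⟩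
  obtain ⟨C, hC, hmin⟩ := Finset.exists_min_image _ (fun C : Finset E => C.card) hex
  rw [Finset.mem_filter, Finset.mem_powerset] at hC
  obtain ⟨hCD, hCne, hCev⟩ := hC
  have hmin' : ∀ C' : Finset E, C' ⊆ C → C'.Nonempty → G.IsEven C' → C' = C := by
    intro C' h1 h2 h3
    have := hmin C' (Finset.mem_filter.2 ⟨Finset.mem_powerset.2 (h1.trans hCD), h2, h3⟩)
    exact Finset.eq_of_subset_of_card_le h1 this
  refine ⟨C, hCD, hCne, ?_, ?_⟩
  · -- degrees
    obtain ⟨e0, he0⟩ := hCne
    have hcard : C.card ≤ (univ.filter fun v => G.deg C v ≠ 0).card := by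
      by_contra h
      push Not at h
      obtain ⟨D', h1, h2, h3, h4⟩ := G.exists_even_sub C e0 he0 h
      have := hmin' D' h1 h2 h4
      rw [this] at h3
      exact h3 he0
    have htotal : ∑ v, G.deg C v = 2 * C.card := by
      have h1 : ∀ v ∈ (univ : Finset V), G.deg C v = ∑ e ∈ C, G.ep e v :=
        fun v _ => G.deg_eq_sum C v
      rw [Finset.sum_congr rfl h1, Finset.sum_comm]
      have h2 : ∀ e ∈ C, ∑ v, G.ep e v = 2 := fun e _ => G.sum_ep e
      rw [Finset.sum_congr rfl h2, Finset.sum_const, smul_eq_mul, mul_comm]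
    have hge : ∀ v, G.deg C v ≠ 0 → 2 ≤ G.deg C v := by
      intro v hv
      obtain ⟨k, hk⟩ := hCev v
      omega
    have hs : ∑ v ∈ univ.filter (fun v => G.deg C v ≠ 0), G.deg C v = 2 * C.card := by
      rw [← htotal]
      apply Finset.sum_subset (Finset.filter_subset _ _)
      intro v _ hv
      by_contra h
      exact hv (Finset.mem_filter.2 ⟨Finset.mem_univ _, h⟩)
    intro v
    by_contra hcon
    push Not at hcon
    obtain ⟨h0, h2⟩ := hcon
    have h3 : ∑ _v ∈ univ.filter (fun v => G.deg C v ≠ 0), 2 <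
        ∑ v ∈ univ.filter (fun v => G.deg C v ≠ 0), G.deg C v := by
      apply Finset.sum_lt_sum
      · intro u hu
        exact hge u (Finset.mem_filter.1 hu).2
      · refine ⟨v, Finset.mem_filter.2 ⟨Finset.mem_univ _, h0⟩, ?_⟩
        have := hge v h0
        omega
    rw [Finset.sum_const, smul_eq_mul, hs] at h3
    omega
  · -- connectedness
    intro e he f hf
    let K : Finset E := C.filter (fun g => Relation.ReflTransGen
      (fun a b => b ∈ C ∧ ∃ v, v ∈ G.ends a ∧ v ∈ G.ends b) e g)
    have hK : K = C := by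
      apply hmin' K (Finset.filter_subset _ _)
      · exact ⟨e, Finset.mem_filter.2 ⟨he, Relation.ReflTransGen.refl⟩⟩
      · intro v
        by_cases hv : ∃ g ∈ K, v ∈ G.ends g
        · obtain ⟨g, hgK, hgv⟩ := hv
          have hsame : G.deg K v = G.deg C v := by
            rw [deg_eq_sum, deg_eq_sum]
            apply Finset.sum_subset (Finset.filter_subset _ _)
            intro g' hg' hg'K
            have hnv : v ∉ G.ends g' := by
              intro hv'
              apply hg'K
              refine Finset.mem_filter.2 ⟨hg', ?_⟩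
              exact (Finset.mem_filter.1 hgK).2.tail ⟨hg', v, hgv, hv'⟩
            exact G.ep_eq_zero hnv
          rw [hsame]
          exact hCev v
        · push Not at hv
          have : G.deg K v = 0 := by
            rw [deg_eq_sum]
            apply Finset.sum_eq_zero
            intro g hg
            exact G.ep_eq_zero (hv g hg)
          rw [this]
          exact ⟨0, rfl⟩
    have : f ∈ K := by rw [hK]; exact hf
    exact (Finset.mem_filter.1 this).2

/-- an even edge set is a disjoint union of circuits -/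
lemma decompose : ∀ (n : ℕ) (D : Finset E), D.card = n → G.IsEven D →
    ∃ F : Multiset (Finset E), (∀ C ∈ F, G.IsCircuit C) ∧
      ∀ e, F.countP (fun C => e ∈ C) = if e ∈ D then 1 else 0 := by
  intro n
  induction n using Nat.strong_induction_on with
  | _ n ih =>
  intro D hn hev
  by_cases hD : D.Nonempty
  · obtain ⟨C, hCD, hC⟩ := G.exists_circuit D hD hev
    have hlt : (D \ C).card < n := by
      rw [← hn]
      apply Finset.card_lt_card
      rw [Finset.ssubset_iff_of_subset Finset.sdiff_subset]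
      obtain ⟨e, he⟩ := hC.1
      exact ⟨e, hCD he, fun h => (Finset.mem_sdiff.1 h).2 he⟩
    obtain ⟨F, hF1, hF2⟩ := ih _ hlt (D \ C) rfl (G.isEven_sdiff hCD hC.isEven hev)
    refine ⟨C ::ₘ F, ?_, ?_⟩
    · intro C' hC'
      rcases Multiset.mem_cons.1 hC' with h | h
      · rw [h]; exact hC
      · exact hF1 C' h
    · intro e
      rw [Multiset.countP_cons, hF2 e]
      by_cases h1 : e ∈ C
      · have h2 : e ∈ D := hCD h1
        simp [h1, h2]
      · by_cases h2 : e ∈ D
        · simp [h1, h2]
        · simp [h1, h2]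
  · rw [Finset.not_nonempty_iff_eq_empty] at hD
    subst hD
    exact ⟨0, by simp, by simp⟩

end MGraph

end Pool.Agent.H126R2.CDC
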