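import Pool.Agent.Helper879.ECD.Flow

set_option autoImplicit false
set_option linter.unusedSectionVars false

/-!
The lift: if three even edge sets `A 0, A 1, A 2` cover all edges of a graph, then there are three
even edge sets `B 0, B 1, B 2` such that every edge `e` satisfies
`A 0 e * B 0 e + A 1 e * B 1 e + A 2 e * B 2 e = 1` over the field with two elements.
-/

namespace Pool.Agent.H126R2.CDC

open Finset
open Pool.Agent.Helper879.ECD (F2 IsFlow)

section

variable {W E : Type} [Fintype W] [DecidableEq W] [Fintype E] [DecidableEq E]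

/-- a linear functional on vectors indexed by `E` is given by its values on unit vectors -/
lemma functional_eq (f : (E → F2) →ₗ[F2] F2) (x : E → F2) :
    f x = ∑ e, f (Pi.single e 1) * x e := by
  conv_lhs => rw [← Finset.univ_sum_single x]
  rw [map_sum]
  apply Finset.sum_congr rfl
  intro e _
  have : (Pi.single e (x e) : E → F2) = x e • Pi.single e 1 := by
    rw [← Pi.single_smul, smul_eq_mul, mul_one]
  rw [this, map_smul, smul_eq_mul, mul_comm]

/-- the coboundary map -/
def cob (a b : E → W) : (W → F2) →ₗ[F2] (E → F2) where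
  toFun c e := c (a e) + c (b e)
  map_add' c d := by ext e; simp only [Pi.add_apply]; ring
  map_smul' r c := by ext e; simp only [Pi.smul_apply, smul_eq_mul, RingHom.id_apply]; ring

/-- a vector orthogonal to all flows is a coboundary -/
lemma mem_cob_of_orth (a b : E → W) (g : E → F2)
    (h : ∀ B : E → F2, IsFlow a b B → ∑ e, B e * g e = 0) :
    ∃ c : W → F2, ∀ e, g e = c (a e) + c (b e) := by
  by_contra hcon
  have hg : g ∉ LinearMap.range (cob a b) := by
    rintro ⟨c, hc⟩
    exact hcon ⟨c, fun e => (congrFun hc e).symm⟩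
  obtain ⟨f, hf1, hf2⟩ := Submodule.exists_dual_map_eq_bot_of_notMem hg inferInstance
  apply hf1
  rw [functional_eq f g]
  apply h (fun e => f (Pi.single e 1))
  intro c
  have h1 : f (cob a b c) = 0 := by
    have : f (cob a b c) ∈ (LinearMap.range (cob a b)).map f :=
      Submodule.mem_map_of_mem ⟨c, rfl⟩
    rw [hf2] at this
    exact (Submodule.mem_bot F2).1 this
  rw [functional_eq] at h1
  exact h1

lemma point_identity : ∀ d A1 A2 A3 p1 p2 p3 q1 q2 q3 : F2,
    (A1 ≠ 0 ∨ A2 ≠ 0 ∨ A3 ≠ 0) → d * A1 = p1 + q1 → d * A2 = p2 + q2 → d * A3 = p3 + q3 →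
    d = A1 * (p1 + q1) + A2 * (p2 + q2) + A3 * (p3 + q3) +
      A1 * (p2 + q2) + A1 * (p3 + q3) + A2 * (p3 + q3) +
      A1 * (p2 * p3 + q2 * q3) + A2 * (p1 * p3 + q1 * q3) + A3 * (p1 * p2 + q1 * q2) := by
  decide +kernel

/-- the lift of an eight-flow -/
theorem lift (a b : E → W) (A : Fin 3 → E → F2) (hA : ∀ i, IsFlow a b (A i))
    (hnz : ∀ e, A 0 e ≠ 0 ∨ A 1 e ≠ 0 ∨ A 2 e ≠ 0) :
    ∃ B : Fin 3 → E → F2, (∀ i, IsFlow a b (B i)) ∧
      ∀ e, A 0 e * B 0 e + A 1 e * B 1 e + A 2 e * B 2 e = 1 := by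
  -- the space of all vectors of the required shape
  let S : Submodule F2 (E → F2) :=
    { carrier := {x | ∃ B : Fin 3 → E → F2, (∀ i, IsFlow a b (B i)) ∧
        ∀ e, A 0 e * B 0 e + A 1 e * B 1 e + A 2 e * B 2 e = x e}
      zero_mem' := ⟨fun _ _ => 0, fun i c => by simp, fun e => by simp⟩
      add_mem' := by
        rintro x y ⟨B, hB, hBx⟩ ⟨B', hB', hBy⟩
        refine ⟨fun i e => B i e + B' i e, fun i c => ?_, fun e => ?_⟩
        · have h1 := hB i c
          have h2 := hB' i c
          simp only [add_mul, Finset.sum_add_distrib] at *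
          rw [h1, h2, add_zero]
        · simp only [Pi.add_apply]
          rw [← hBx, ← hBy]; ring
      smul_mem' := by
        rintro r x ⟨B, hB, hBx⟩
        refine ⟨fun i e => r * B i e, fun i c => ?_, fun e => ?_⟩
        · have h1 := hB i c
          simp only [mul_assoc, ← Finset.mul_sum] at *
          rw [h1, mul_zero]
        · simp only [Pi.smul_apply, smul_eq_mul]
          rw [← hBx]; ring }
  suffices h : (fun _ => 1 : E → F2) ∈ S from h
  by_contra hcon
  obtain ⟨f, hf1, hf2⟩ := Submodule.exists_dual_map_eq_bot_of_notMem hcon inferInstance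
  have hf : ∀ x ∈ S, f x = 0 := by
    intro x hx
    have : f x ∈ S.map f := Submodule.mem_map_of_mem hx
    rw [hf2] at this
    exact (Submodule.mem_bot F2).1 this
  set d : E → F2 := fun e => f (Pi.single e 1) with hd
  -- `d * A i` is a coboundary
  have hcob : ∀ i : Fin 3, ∃ c : W → F2, ∀ e, d e * A i e = c (a e) + c (b e) := by
    intro i
    apply mem_cob_of_orth
    intro B hB
    have hmem : (fun e => A i e * B e) ∈ S := by
      refine ⟨fun j e => if j = i then B e else 0, fun j c => ?_, fun e => ?_⟩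
      · by_cases hj : j = i
        · simp only [hj, if_true]; exact hB c
        · simp [hj]
      · fin_cases i <;> simp
    have h1 := hf _ hmem
    rw [functional_eq] at h1
    rw [← h1]
    apply Finset.sum_congr rfl
    intro e _
    simp only [hd]; ring
  choose x hx using hcob
  apply hf1
  rw [functional_eq]
  have h1 : ∀ e ∈ (univ : Finset E), f (Pi.single e 1) * (1 : F2) =
      A 0 e * (x 0 (a e) + x 0 (b e)) + A 1 e * (x 1 (a e) + x 1 (b e)) +
      A 2 e * (x 2 (a e) + x 2 (b e)) + A 0 e * (x 1 (a e) + x 1 (b e)) +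
      A 0 e * (x 2 (a e) + x 2 (b e)) + A 1 e * (x 2 (a e) + x 2 (b e)) +
      A 0 e * ((x 1 * x 2) (a e) + (x 1 * x 2) (b e)) +
      A 1 e * ((x 0 * x 2) (a e) + (x 0 * x 2) (b e)) +
      A 2 e * ((x 0 * x 1) (a e) + (x 0 * x 1) (b e)) := by
    intro e _
    rw [mul_one]
    exact point_identity (d e) (A 0 e) (A 1 e) (A 2 e) (x 0 (a e)) (x 1 (a e)) (x 2 (a e))
      (x 0 (b e)) (x 1 (b e)) (x 2 (b e)) (hnz e) (hx 0 e) (hx 1 e) (hx 2 e)
  rw [Finset.sum_congr rfl h1]
  simp only [Finset.sum_add_distrib]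
  rw [hA 0 (x 0), hA 1 (x 1), hA 2 (x 2), hA 0 (x 1), hA 0 (x 2), hA 1 (x 2),
    hA 0 (x 1 * x 2), hA 1 (x 0 * x 2), hA 2 (x 0 * x 1)]
  simp

end

end Pool.Agent.H126R2.CDC
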